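import Mathlib
import Pool.Agent.R494.IX.Fin3
import Pool.Agent.R494.IX.SM2

set_option autoImplicit false

/-!
# The question in Cramér's model

The question is whether for every `n ≥ 32` there is `k`, `0 < k < n - 2`, such that
`q = φ(k) + φ(n - k) / 2 + 1` is prime, and `p_q - q - 1` and `p_q - q + 1` are primes, where `p_q` is
the `q`-th prime.  We show that this holds for all large `n`, almost surely, if the primes are
replaced by the random set of Cramér's model.  The difficulty is that `p_q` is a random variable which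
depends on all earlier choices.
-/

open MeasureTheory Filter
open scoped Topology

namespace Pool.Agent.Results.MP_61a569_nt.CramersModel

/-- Let `A n` be the event that `n` is chosen, adapted to a filtration `ℱ`, such that for `n ≥ 2` the
conditional probability of `A (n + 1)` given `ℱ n` is `1 / log (n + 1)`.  Then, almost surely, for all
large `n` there is `k` with `0 < k < n - 2` such that `q = φ(k) + φ(n - k) / 2 + 1` is chosen, and with
`s` the `q`-th chosen number (`Nat.nth` of the chosen set at `q - 1`), `s ≥ q + 1`, and `s - q - 1` and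
`s - q + 1` are chosen. -/
theorem result
    {Ω : Type} [mΩ : MeasurableSpace Ω] (μ : Measure Ω) [IsProbabilityMeasure μ]
    (ℱ : Filtration ℕ mΩ) (A : ℕ → Set Ω) (hA : ∀ n, MeasurableSet[ℱ n] (A n))
    (hd : ∀ n : ℕ, 2 ≤ n →
      μ[(A (n + 1)).indicator (fun _ => (1 : ℝ)) | ℱ n] =ᵐ[μ] fun _ => 1 / Real.log (n + 1)) :
    ∀ᵐ ω ∂μ, ∀ᶠ n : ℕ in atTop, ∃ k : ℕ, 0 < k ∧ k < n - 2 ∧
      ∃ q : ℕ, q = Nat.totient k + Nat.totient (n - k) / 2 + 1 ∧ ω ∈ A q ∧
        q + 1 ≤ Nat.nth (fun m => ω ∈ A m) (q - 1) ∧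
        ω ∈ A (Nat.nth (fun m => ω ∈ A m) (q - 1) - q - 1) ∧
        ω ∈ A (Nat.nth (fun m => ω ∈ A m) (q - 1) - q + 1) :=
  Pool.Agent.R494.IX.final Pool.Agent.R494.IX.sm hA hd

end Pool.Agent.Results.MP_61a569_nt.CramersModel
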