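import Pool.Agent.R251.TS.Conf
import Pool.Agent.R526.UT.Sums

set_option autoImplicit false

/-!
# The question for primes moved by at most `p ^ (1 - κ)`

There is an absolute constant `0 < κ < 1` (from Hoheisel's theorem) with the following property. Every large prime
`p` stays where it is with probability `1 - δ`, and with probability `δ` it is moved to `p + 2 i` with a uniformly
random `1 ≤ i ≤ W(p)`, independently of the others; `0 < δ ≤ 1` is fixed, `W` is nondecreasing, `W(p) ≥ p ^ (1 - κ)`,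
`2 W(p) ≤ p` and `W(2 n) ≤ D W(n)`. Let `𝒮` be the resulting random set. Almost surely every large `n` has a `k`,
`1 ≤ k < n - 2`, such that the three numbers `q = φ(k) + φ(n - k) / 2 + 1`, `p_q - q - 1` and `p_q - q + 1` are in
`𝒮` (`p_q` is the `q`-th prime); more generally `q + H₁ ⊆ 𝒮` and `p_q - q - 1 + H₂ ⊆ 𝒮` for all finite sets
`H₁`, `H₂` of even numbers.
-/

open MeasureTheory ProbabilityTheory Filter

namespace Pool.Agent.Results.MP_61a569_nt.MovedPrimes

/-- The `m`-th prime: `p 1 = 2`, `p 2 = 3`. -/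
noncomputable def p (m : ℕ) : ℕ := Nat.nth Nat.Prime (m - 1)

/-- `q n k = φ(k) + φ(n - k) / 2 + 1`. -/
def q (n k : ℕ) : ℕ := Nat.totient k + Nat.totient (n - k) / 2 + 1

/-- For all large primes `p`: `i p = 0` with probability `1 - δ`, and `i p = k` with probability `δ / W p` for each
`1 ≤ k ≤ W p`; the random variables `i p` are independent. -/
def Moves (δ : ℝ) (W : ℕ → ℕ) (Ω : Type) [MeasurableSpace Ω] (μ : Measure Ω) (i : ℕ → Ω → ℕ) : Prop :=
  (∀ p, Measurable (i p)) ∧ iIndepFun i μ ∧ ∃ p₀ : ℕ, ∀ p : ℕ, p.Prime → p₀ ≤ p →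
    μ.real {w | i p w = 0} = 1 - δ ∧ ∀ k : ℕ, 1 ≤ k → k ≤ W p → μ.real {w | i p w = k} = δ / W p

/-- the set `𝒮` of all `p + 2 * i p`, `p` prime -/
def S {Ω : Type} (i : ℕ → Ω → ℕ) (w : Ω) : Set ℕ := {m : ℕ | ∃ p : ℕ, p.Prime ∧ p + 2 * i p w = m}

/-- There is `0 < κ < 1` such that, if `W` is nondecreasing and `W n ≥ n^(1 - κ)`, `2 W n ≤ n`, `W (2 n) ≤ D W n`
for large `n`, and `0 < δ ≤ 1`, almost surely: (1) every large `n` has a `k`, `1 ≤ k < n - 2`, with `q`,
`p_q - q - 1`, `p_q - q + 1 ∈ 𝒮`, `q = q n k`; (2) for all finite sets `H₁`, `H₂` of even numbers every large `n` has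
a `k`, `1 ≤ k < n - 2`, with `q + H₁ ⊆ 𝒮` and `p_q - q - 1 + H₂ ⊆ 𝒮`. -/
theorem result : ∃ κ : ℝ, 0 < κ ∧ κ < 1 ∧ ∀ (D δ : ℝ), 1 ≤ D → 0 < δ → δ ≤ 1 → ∀ (W : ℕ → ℕ), Monotone W →
    (∀ᶠ n : ℕ in atTop, (n : ℝ) ^ (1 - κ) ≤ W n ∧ 2 * W n ≤ n ∧ (W (2 * n) : ℝ) ≤ D * W n) →
    ∀ (Ω : Type) [MeasurableSpace Ω] (μ : Measure Ω) [IsProbabilityMeasure μ] (i : ℕ → Ω → ℕ),
      Moves δ W Ω μ i → ∀ᵐ w ∂μ,
        (∀ᶠ n : ℕ in atTop, ∃ k : ℕ, 1 ≤ k ∧ k + 2 < n ∧ q n k ∈ S i w ∧
          p (q n k) - q n k - 1 ∈ S i w ∧ p (q n k) - q n k + 1 ∈ S i w) ∧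
        (∀ H₁ H₂ : Finset ℕ, (∀ h ∈ H₁, Even h) → (∀ h ∈ H₂, Even h) →
          ∀ᶠ n : ℕ in atTop, ∃ k : ℕ, 1 ≤ k ∧ k + 2 < n ∧ (∀ h ∈ H₁, q n k + h ∈ S i w) ∧
            (∀ h ∈ H₂, p (q n k) - q n k - 1 + h ∈ S i w)) := by
  obtain ⟨κ, hκ0, hκ1, hU⟩ := Pool.Agent.R526.UT.univ
  refine ⟨κ, hκ0, hκ1, ?_⟩
  intro D δ hD hδ0 hδ1 W hmono hW Ω _ μ _ X hi
  obtain ⟨hX, hind, p₀, hlaw⟩ := hi
  have hG : Pool.Agent.R526.UT.Grow κ D W :=
    ⟨hmono, hW.mono fun n h => h.1, hW.mono fun n h => h.2.1, hW.mono fun n h => h.2.2⟩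
  have main : ∀ᵐ w ∂μ, ∀ H₁ H₂ : Finset ℕ, (∀ h ∈ H₁, Even h) → (∀ h ∈ H₂, Even h) →
      ∀ᶠ n : ℕ in atTop, ∃ k : ℕ, 1 ≤ k ∧ k + 2 < n ∧ (∀ h ∈ H₁, q n k + h ∈ S X w) ∧
            (∀ h ∈ H₂, p (q n k) - q n k - 1 + h ∈ S X w) := by
    rw [ae_all_iff]
    intro H₁
    rw [ae_all_iff]
    intro H₂
    by_cases hH : (∀ h ∈ H₁, Even h) ∧ (∀ h ∈ H₂, Even h)
    swap
    · filter_upwards with ω h1 h2
      exact absurd ⟨h1, h2⟩ hH
    obtain ⟨he1, he2⟩ := hH
    by_cases hk0 : H₁.card + H₂.card = 0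
    · have e1 : H₁ = ∅ := Finset.card_eq_zero.1 (by omega)
      have e2 : H₂ = ∅ := Finset.card_eq_zero.1 (by omega)
      subst e1
      subst e2
      filter_upwards with ω _ _
      filter_upwards [eventually_ge_atTop 10] with n hn
      exact ⟨1, le_rfl, by omega, by simp, by simp⟩
    have hk1 : 1 ≤ H₁.card + H₂.card := by omega
    generalize hkk : H₁.card + H₂.card = kk at hk1
    -- the configurations
    have hconf := Pool.Agent.R251.TS.conf (2 * kk + 1)
    obtain ⟨K, hK⟩ : ∃ K : ℕ → ℕ → ℕ, ∀ᶠ n : ℕ in atTop,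
        (∀ s < ⌈(Real.log n) ^ (2 * kk + 1)⌉₊, 1 ≤ K n s ∧ K n s + 2 < n ∧ Odd (q n (K n s)) ∧
          n ≤ 10 * q n (K n s)) ∧
        Set.InjOn (fun s => q n (K n s)) (Finset.range ⌈(Real.log n) ^ (2 * kk + 1)⌉₊ : Finset ℕ) := by
      classical
      refine ⟨fun n => if h : ∃ K : ℕ → ℕ,
        (∀ s < ⌈(Real.log n) ^ (2 * kk + 1)⌉₊, 1 ≤ K s ∧ K s + 2 < n ∧ Odd (q n (K s)) ∧
          n ≤ 10 * q n (K s)) ∧
        Set.InjOn (fun s => q n (K s)) (Finset.range ⌈(Real.log n) ^ (2 * kk + 1)⌉₊ : Finset ℕ)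
        then h.choose else fun _ => 0, ?_⟩
      filter_upwards [hconf] with n hn
      have hn' : ∃ K : ℕ → ℕ,
        (∀ s < ⌈(Real.log n) ^ (2 * kk + 1)⌉₊, 1 ≤ K s ∧ K s + 2 < n ∧ Odd (q n (K s)) ∧
          n ≤ 10 * q n (K s)) ∧
        Set.InjOn (fun s => q n (K s)) (Finset.range ⌈(Real.log n) ^ (2 * kk + 1)⌉₊ : Finset ℕ) := hn
      simp only [dif_pos hn']
      exact hn'.choose_spec
    set c : ℕ → ℕ → ℕ → ℕ := fun n s j =>
      if j < H₁.card then q n (K n s) + Pool.Agent.R526.UT.el H₁ j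
      else p (q n (K n s)) - q n (K n s) - 1 + Pool.Agent.R526.UT.el H₂ (j - H₁.card) with hc
    have hp_lb : ∀ m : ℕ, 2 ≤ m → ∀ d : ℕ, p m + 2 * d ≤ p (m + d) := Pool.Agent.R251.TS.pr_lb
    have hp_odd : ∀ m : ℕ, 2 ≤ m → (p m) % 2 = 1 := Pool.Agent.R251.TS.pr_odd
    have hp2 : 3 ≤ p 2 := by
      have h1 := hp_odd 2 le_rfl
      have h2 : 2 ≤ p 2 := (Nat.prime_nth_prime _).two_le
      omega
    have hp_big : ∀ m : ℕ, 2 ≤ m → 2 * m ≤ p m + 1 := by
      intro m hm
      have := hp_lb 2 le_rfl (m - 2)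
      have e : 2 + (m - 2) = m := by omega
      rw [e] at this
      omega
    set B : ℕ := ∑ h ∈ H₁ ∪ H₂, h with hB
    have hB1 : ∀ h ∈ H₁, h ≤ B := fun h hh =>
      Finset.single_le_sum (f := fun h => h) (fun i _ => Nat.zero_le _) (Finset.mem_union_left _ hh)
    have hB2 : ∀ h ∈ H₂, h ≤ B := fun h hh =>
      Finset.single_le_sum (f := fun h => h) (fun i _ => Nat.zero_le _) (Finset.mem_union_right _ hh)
    have hqle : ∀ n k : ℕ, k ≤ n → q n k ≤ n + 1 := by
      intro n k hk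
      unfold q
      have h1 := Nat.totient_le k
      have h2 := Nat.totient_le (n - k)
      omega
    have hU2 := hU D δ hD hδ0 hδ1 W hG Ω μ X hX hind p₀
      (fun p hp hp0 k hk1 hk2 => (hlaw p hp hp0).2 k hk1 hk2) kk 4
      (fun n => Finset.range ⌈(Real.log n) ^ (2 * kk + 1)⌉₊) c hk1 (by norm_num)
      (by
        filter_upwards [hK, Pool.Agent.R251.TS.pr_ub, eventually_ge_atTop (B + 100)] with n h1 h2 h3 s hs j hj
        obtain ⟨a1, a2, a3, a4⟩ := h1.1 s (Finset.mem_range.1 hs)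
        have a5 := hqle n (K n s) (by omega)
        have a6 : p (q n (K n s)) ≤ n ^ 3 := h2 _ (by omega)
        have a7 := hp_odd (q n (K n s)) (by omega)
        have a8 := hp_big (q n (K n s)) (by omega)
        have a9 := Nat.odd_iff.1 a3
        have key : ∀ x : ℕ, x ≤ n ^ 3 + n + 1 + B → (x : ℝ) ≤ (n : ℝ) ^ (4 : ℝ) := by
          intro x hx
          have h6 : (n : ℝ) ^ (4 : ℝ) = ((n ^ 4 : ℕ) : ℝ) := by
            push_cast
            rw [← Real.rpow_natCast]
            norm_num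
          rw [h6]
          have h7 : n ^ 3 + n + 1 + B ≤ n ^ 4 := by
            have e : n ^ 4 = n * n ^ 3 := by ring
            have e2 : n * n ≤ n ^ 3 := by nlinarith [Nat.zero_le n]
            nlinarith
          exact_mod_cast hx.trans h7
        simp only [hc]
        by_cases hj1 : j < H₁.card
        · rw [if_pos hj1]
          have h5 := Pool.Agent.R526.UT.el_mem H₁ j hj1
          exact ⟨a3.add_even (he1 _ h5), key _ (by have := hB1 _ h5; omega)⟩
        · rw [if_neg hj1]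
          have h5 := Pool.Agent.R526.UT.el_mem H₂ (j - H₁.card) (by omega)
          refine ⟨?_, key _ (by have := hB2 _ h5; omega)⟩
          apply Odd.add_even _ (he2 _ h5)
          rw [Nat.odd_iff]
          omega)
      (by
        intro M
        filter_upwards [hK, eventually_ge_atTop (10 * M + 100)] with n h1 h2 s hs j hj
        obtain ⟨a1, a2, a3, a4⟩ := h1.1 s (Finset.mem_range.1 hs)
        have a8 := hp_big (q n (K n s)) (by omega)
        simp only [hc]
        split_ifs <;> omega)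
      (by
        filter_upwards [hK, eventually_ge_atTop 100] with n h1 h2 j hj
        intro s hs s' hs' hss
        have b1 : s < _ := Finset.mem_range.1 (Finset.mem_coe.1 hs)
        have b2 : s' < _ := Finset.mem_range.1 (Finset.mem_coe.1 hs')
        obtain ⟨a1, a2, a3, a4⟩ := h1.1 s b1
        obtain ⟨a1', a2', a3', a4'⟩ := h1.1 s' b2
        apply h1.2 hs hs'
        show q n (K n s) = q n (K n s')
        simp only [hc] at hss
        by_cases hj1 : j < H₁.card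
        · rw [if_pos hj1, if_pos hj1] at hss
          omega
        · rw [if_neg hj1, if_neg hj1] at hss
          have a8 := hp_big (q n (K n s)) (by omega)
          have a8' := hp_big (q n (K n s')) (by omega)
          rcases lt_trichotomy (q n (K n s)) (q n (K n s')) with h | h | h
          · exfalso
            have h5 := hp_lb (q n (K n s)) (by omega) (q n (K n s') - q n (K n s))
            have e : q n (K n s) + (q n (K n s') - q n (K n s)) = q n (K n s') := by omega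
            rw [e] at h5
            omega
          · exact h
          · exfalso
            have h5 := hp_lb (q n (K n s')) (by omega) (q n (K n s) - q n (K n s'))
            have e : q n (K n s') + (q n (K n s) - q n (K n s')) = q n (K n s) := by omega
            rw [e] at h5
            omega)
      (by
        filter_upwards with n
        rw [Finset.card_range]
        exact Nat.le_ceil _)
    filter_upwards [hU2] with ω hω _ _
    filter_upwards [hω, hK] with n hn hKn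
    obtain ⟨s, hs, hall⟩ := hn
    obtain ⟨a1, a2, a3, a4⟩ := hKn.1 s (Finset.mem_range.1 hs)
    refine ⟨K n s, a1, a2, fun h hh => ?_, fun h hh => ?_⟩
    · obtain ⟨j, hj, hjh⟩ := Pool.Agent.R526.UT.el_surj H₁ h hh
      obtain ⟨pp, hpp, hpe⟩ := hall j (by omega)
      refine ⟨pp, hpp, ?_⟩
      rw [hpe]
      simp only [hc]
      rw [if_pos hj, hjh]
    · obtain ⟨j, hj, hjh⟩ := Pool.Agent.R526.UT.el_surj H₂ h hh
      obtain ⟨pp, hpp, hpe⟩ := hall (H₁.card + j) (by omega)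
      refine ⟨pp, hpp, ?_⟩
      rw [hpe]
      simp only [hc]
      rw [if_neg (by omega), Nat.add_sub_cancel_left, hjh]
  filter_upwards [main] with w hw
  refine ⟨?_, hw⟩
  have h4 := hw {0} {0, 2} (by decide) (by decide)
  filter_upwards [h4] with n hn
  obtain ⟨k, hk1, hk2, hA, hB⟩ := hn
  refine ⟨k, hk1, hk2, hA 0 (by decide), hB 0 (by decide), ?_⟩
  have h5 := hB 2 (by decide)
  -- `p_q - q - 1 + 2 = p_q - q + 1`
  have hq2 : 2 ≤ q n k := by
    unfold q
    have : 0 < Nat.totient k := Nat.totient_pos.2 hk1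
    omega
  have h6 := Pool.Agent.R251.TS.pr_lb 2 le_rfl (q n k - 2)
  have e : 2 + (q n k - 2) = q n k := by omega
  rw [e] at h6
  have h7 : 2 ≤ Pool.Agent.R251.TS.pr 2 := (Pool.Agent.R251.TS.pr_prime 2).two_le
  have h8 := Pool.Agent.R251.TS.pr_odd 2 le_rfl
  have h9 : Pool.Agent.R251.TS.pr (q n k) = p (q n k) := rfl
  rw [h9] at h6
  have h10 : p (q n k) - q n k - 1 + 2 = p (q n k) - q n k + 1 := by omega
  rw [h10] at h5
  exact h5

end Pool.Agent.Results.MP_61a569_nt.MovedPrimes
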