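import Pool.Agent.R251.TS.Sys
import Pool.Agent.R518.B.Gen

set_option autoImplicit false

/-!
# Prime `q` (even `n`) or prime `l` (odd `n`): exact number of arguments and law of the successors
-/

namespace Pool.Agent.Results.MP_61a569_nt.PrimeArguments

open Finset Filter

/-- The summand `k`: for `j = 0` the number `2 x - n + 1`, for `j ≥ 2` the number `n - 2 ^ j (2 x + 1)`. -/
def kk (n j x : ℕ) : ℤ := if j = 0 then 2 * x - n + 1 else n - 2 ^ j - 2 ^ (j + 1) * x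

/-- The number `l` with `n = k + 2 ^ j l`. -/
def ll (n j x : ℕ) : ℤ := if j = 0 then 2 * n - 1 - 2 * x else 2 * x + 1

/-- The value of `q(n, k) = φ(k) + φ(n - k) / 2 + 1` when `k` and `l` are primes. -/
def qq (n j x : ℕ) : ℤ := if j = 0 then x else n - 2 ^ j - 3 * 2 ^ (j - 1) * x

/-- The number which is required to be prime: `q = x` for `j = 0` and `l = 2 x + 1` for `j ≥ 2`. -/
def base (j x : ℕ) : ℕ := if j = 0 then x else 2 * x + 1

/-- The admissible `j`: `j = 0` for even `n`, and all `j ≥ 2` with `2 ^ j ≤ n`, `3 ∤ n - 2 ^ j` for odd `n`. -/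
def Fits (n j : ℕ) : Prop :=
  (j = 0 ∧ Even n) ∨ (2 ≤ j ∧ 2 ^ j ≤ n ∧ Odd n ∧ ¬ (3 : ℤ) ∣ n - 2 ^ j)

/-- `p` divides one of the three numbers. -/
def Divides (n j p x : ℕ) : Prop := (p : ℤ) ∣ kk n j x ∨ (p : ℤ) ∣ ll n j x ∨ (p : ℤ) ∣ qq n j x

/-- None of the three numbers has a prime factor `≤ y`. -/
def Rough (n j y x : ℕ) : Prop := ∀ p : ℕ, p.Prime → p ≤ y → ¬ Divides n j p x

open Classical in
/-- The density of these `x`: the product of `1 - ν(p) / p` over the primes `p ≤ y`, where `ν(p)` is the number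
of the residues `x` modulo `p` for which `p` divides one of the three numbers. -/
noncomputable def V (n j y : ℕ) : ℝ := ∏ p ∈ (Finset.range (y + 1)).filter Nat.Prime,
    (1 - (((Finset.range p).filter (fun x : ℕ => Divides n j p x)).card : ℝ) / p)

open Classical in
/-- The product of `(1 - ν(p) / p) / (1 - 1 / p)` over the primes `p ≤ y`. -/
noncomputable def W (n j y : ℕ) : ℝ := ∏ p ∈ (Finset.range (y + 1)).filter Nat.Prime,
    (1 - (((Finset.range p).filter (fun x : ℕ => Divides n j p x)).card : ℝ) / p) / (1 - 1 / (p : ℝ))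

open Classical in
/-- The `x` in `(u, u + Y]` with `base j x` prime and `Rough n j y x`. -/
noncomputable def P (n j y u Y : ℕ) : Finset ℕ :=
  (Ioc u (u + Y)).filter (fun x => (base j x).Prime ∧ Rough n j y x)

open Classical in
/-- The number of the integers `x'` in `(x, x + T]` with `Rough n j y x'`. -/
noncomputable def Next (n j y T x : ℕ) : ℕ := ((Ioc x (x + T)).filter (fun x' => Rough n j y x')).card

/-- **Prime arguments.** (1) Every `n ≥ 8` has an admissible `j`. (2) `base j x` is `qq n 0 x` for `j = 0` and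
`ll n j x` for `j ≥ 2`; if `k = kk n j x` and `l = ll n j x` are primes, then `1 ≤ k < n - 2`, `n = k + 2 ^ j l` and
`q(n, k) = φ(k) + φ(n - k) / 2 + 1` is `qq n j x`. (3) For all `θ, δ > 0`, `x0` and `ε > 0` there is `r0` such that
for `r ≥ r0` the following holds for EVERY large `n` and ALL admissible `j`, with `y = n ^ (1 / r)`: for all
`X ≥ n ^ θ` and all intervals `(u, u + Y]` in `(0, X]` with `Y ≥ δ X` the number of the `x` in the interval for
which `base j x` is a prime and none of `k`, `l`, `q` has a prime factor `≤ y` is `(1 + O(ε)) Y W / log X`; and if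
`T V ≤ x0`, then the number of the integers `x'` in `(x, x + T]` for which none of the three numbers has a prime
factor `≤ y`, `x` running over these arguments, has the Poisson law with mean `T V`, up to `ε`. -/
theorem result :
    (∀ n : ℕ, 8 ≤ n → ∃ j, Fits n j) ∧
    (∀ n j x : ℕ, (j = 0 → (base j x : ℤ) = qq n j x) ∧ (j ≠ 0 → (base j x : ℤ) = ll n j x)) ∧
    (∀ n j x k l : ℕ, Fits n j → k.Prime → l.Prime → (k : ℤ) = kk n j x → (l : ℤ) = ll n j x →
      1 ≤ k ∧ k + 2 < n ∧ n = k + 2 ^ j * l ∧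
        ((k.totient + (n - k).totient / 2 + 1 : ℕ) : ℤ) = qq n j x) ∧
    ∀ (θ δ : ℝ), 0 < θ → 0 < δ → δ ≤ 1 → ∀ (x0 ε : ℝ), 0 < ε → ε ≤ 1 →
    ∃ r0 : ℕ, 2 ≤ r0 ∧ ∀ r : ℕ, r0 ≤ r → ∀ᶠ n : ℕ in atTop, ∀ j : ℕ, Fits n j →
      0 < W n j ⌊(n : ℝ) ^ (1 / (r : ℝ))⌋₊ ∧
      ∀ X : ℕ, (n : ℝ) ^ θ ≤ X → ∀ u Y : ℕ, δ * X ≤ Y → u + Y ≤ X →
        |((P n j ⌊(n : ℝ) ^ (1 / (r : ℝ))⌋₊ u Y).card : ℝ) * Real.log X -
          Y * W n j ⌊(n : ℝ) ^ (1 / (r : ℝ))⌋₊| ≤ ε * (Y * W n j ⌊(n : ℝ) ^ (1 / (r : ℝ))⌋₊) ∧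
        ∀ T : ℕ, T * V n j ⌊(n : ℝ) ^ (1 / (r : ℝ))⌋₊ ≤ x0 → ∀ J : Finset ℕ,
          |(((P n j ⌊(n : ℝ) ^ (1 / (r : ℝ))⌋₊ u Y).filter
              (fun x => Next n j ⌊(n : ℝ) ^ (1 / (r : ℝ))⌋₊ T x ∈ J)).card : ℝ) -
            (P n j ⌊(n : ℝ) ^ (1 / (r : ℝ))⌋₊ u Y).card *
              ∑ i ∈ J, Real.exp (-(T * V n j ⌊(n : ℝ) ^ (1 / (r : ℝ))⌋₊)) *
                (T * V n j ⌊(n : ℝ) ^ (1 / (r : ℝ))⌋₊) ^ i / i.factorial| ≤
            ε * (P n j ⌊(n : ℝ) ^ (1 / (r : ℝ))⌋₊ u Y).card := by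
  refine ⟨Pool.Agent.R251.TS.exists_fits, ?_, Pool.Agent.R251.TS.link, ?_⟩
  · intro n j x
    refine ⟨fun hj => ?_, fun hj => ?_⟩
    · unfold base qq
      rw [if_pos hj, if_pos hj]
    · unfold base ll
      rw [if_neg hj, if_neg hj]
      push_cast
      ring
  intro θ δ hθ hδ hδ1 x0 ε hε hε1
  obtain ⟨r1, hr1, h1⟩ := Pool.Agent.R518.G.primeG1 3 1 2 (1 / 2) θ δ (by norm_num) hθ hδ hδ1 x0 ε hε hε1
  obtain ⟨r2, hr2, h2⟩ := Pool.Agent.R518.G.primeG 2 3 1 2 Nat.prime_two.prime.squarefree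
    (1 / 2) θ δ (by norm_num) hθ hδ hδ1 x0 ε hε hε1
  refine ⟨max r1 r2, le_trans hr1 (le_max_left _ _), fun r hr => ?_⟩
  filter_upwards [h1 r ((le_max_left _ _).trans hr), h2 r ((le_max_right _ _).trans hr),
    eventually_ge_atTop 10] with n hn1 hn2 hn
  intro j hj
  have hus := Pool.Agent.R251.TS.us n j hn hj _ (Pool.Agent.R251.TS.half_lt n hn)
  by_cases hj0 : j = 0
  · have h := hn1 _ (Divides n j) hus (Pool.Agent.R251.TS.rep n j)
      ⟨0, fun x => by
        rw [Pool.Agent.R251.TS.l3_eval]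
        unfold Pool.Agent.R251.TS.al Pool.Agent.R251.TS.be
        rw [if_pos hj0, if_pos hj0]
        show (1 : ℤ) * x + 0 = x
        ring⟩ _ rfl
    have eP : ∀ u Y : ℕ, P n j ⌊(n : ℝ) ^ (1 / (r : ℝ))⌋₊ u Y =
        Pool.Agent.R518.G.Pr1 (Divides n j) ⌊(n : ℝ) ^ (1 / (r : ℝ))⌋₊ u Y := by
      intro u Y
      ext x
      simp only [P, Pool.Agent.R518.G.Pr1, Finset.mem_filter]
      rw [show base j x = x from if_pos hj0]
      exact Iff.rfl
    refine ⟨h.1, fun X hX u Y hY huY => ?_⟩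
    rw [eP]
    exact h.2 X hX u Y hY huY
  · have h := hn2 _ (Divides n j) 1 hus (Pool.Agent.R251.TS.rep n j) (by norm_num)
      (fun p x hp hp2 => by
        have : p = 2 := (Nat.prime_dvd_prime_iff_eq hp Nat.prime_two).1 hp2
        subst this
        exact Pool.Agent.R251.TS.odd_all n j x hj0 hj)
      ⟨0, fun x => by
        rw [Pool.Agent.R251.TS.l3_eval]
        unfold Pool.Agent.R251.TS.al Pool.Agent.R251.TS.be
        rw [if_neg hj0, if_neg hj0]
        show (2 : ℤ) * x + 1 = ((2 : ℕ) : ℤ) * x + ((1 : ℕ) : ℤ)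
        push_cast
        ring⟩
      (by
        have : (1 : ℝ) ≤ (n : ℝ) := by exact_mod_cast (by omega : 1 ≤ n)
        push_cast
        exact Real.one_le_rpow this (by positivity)) _ rfl
    have eP : ∀ u Y : ℕ, P n j ⌊(n : ℝ) ^ (1 / (r : ℝ))⌋₊ u Y =
        Pool.Agent.R518.G.Pr 2 1 (Divides n j) ⌊(n : ℝ) ^ (1 / (r : ℝ))⌋₊ u Y := by
      intro u Y
      ext x
      simp only [P, Pool.Agent.R518.G.Pr, Finset.mem_filter]
      rw [show base j x = 2 * x + 1 from if_neg hj0]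
      exact Iff.rfl
    refine ⟨h.1, fun X hX u Y hY huY => ?_⟩
    rw [eP]
    exact h.2 X hX u Y hY huY

end Pool.Agent.Results.MP_61a569_nt.PrimeArguments
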