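import Pool.Agent.R251.TS.Sys

set_option autoImplicit false

/-!
# Regular points of arbitrary sets of representations with prime or rough `k`, `(n - k) / 2 ^ j`, `q(n, k)`
-/

namespace Pool.Agent.Results.MP_61a569_nt.RegularPoints

open Finset Filter

/-- The summand `k`: for `j = 0` the number `2 x - n + 1`, for `j ≥ 2` the number `n - 2 ^ j (2 x + 1)`. -/
def kk (n j x : ℕ) : ℤ := if j = 0 then 2 * x - n + 1 else n - 2 ^ j - 2 ^ (j + 1) * x

/-- The number `l` with `n = k + 2 ^ j l`. -/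
def ll (n j x : ℕ) : ℤ := if j = 0 then 2 * n - 1 - 2 * x else 2 * x + 1

/-- The value of `q(n, k) = φ(k) + φ(n - k) / 2 + 1` when `k` and `l` are primes. -/
def qq (n j x : ℕ) : ℤ := if j = 0 then x else n - 2 ^ j - 3 * 2 ^ (j - 1) * x

/-- The admissible `j`: `j = 0` for even `n`, and all `j ≥ 2` with `2 ^ j ≤ n`, `3 ∤ n - 2 ^ j` for odd `n`. -/
def Fits (n j : ℕ) : Prop :=
  (j = 0 ∧ Even n) ∨ (2 ≤ j ∧ 2 ^ j ≤ n ∧ Odd n ∧ ¬ (3 : ℤ) ∣ n - 2 ^ j)

/-- `p` divides one of the three numbers. -/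
def Divides (n j p x : ℕ) : Prop := (p : ℤ) ∣ kk n j x ∨ (p : ℤ) ∣ ll n j x ∨ (p : ℤ) ∣ qq n j x

/-- None of the three numbers has a prime factor `≤ y`. -/
def Rough (n j y x : ℕ) : Prop := ∀ p : ℕ, p.Prime → p ≤ y → ¬ Divides n j p x

open Classical in
/-- The density of these `x`: the product of `1 - ν(p) / p` over the primes `p ≤ y`, where `ν(p)` is the number
of the residues `x` modulo `p` for which `p` divides one of the three numbers. -/
noncomputable def V (n j y : ℕ) : ℝ := ∏ p ∈ (Finset.range (y + 1)).filter Nat.Prime,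
    (1 - (((Finset.range p).filter (fun x : ℕ => Divides n j p x)).card : ℝ) / p)

open Classical in
/-- The number of elements of `S` in `(a, b]`. -/
noncomputable def count (S : Set ℕ) (a b : ℕ) : ℕ := ((Finset.Ioc a b).filter (fun m => m ∈ S)).card

/-- All intervals `(x - s, x + t]` with `s, t ≤ Y` of length at least `L / κ` contain between
`κ (s + t) / L` and `(s + t) / (κ L)` elements of `S`. -/
def RightOrder (S : Set ℕ) (L κ : ℝ) (Y x : ℕ) : Prop :=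
  ∀ s t : ℕ, s ≤ Y → t ≤ Y → L ≤ κ * (s + t) →
    κ * (s + t) / L ≤ count S (x - s) (x + t) ∧ (count S (x - s) (x + t) : ℝ) ≤ (s + t) / (κ * L)

/-- Up to `δ`, `S` has a constant density on both sides of `x` up to the distance `2 ^ i`. -/
def ConstantDensity (S : Set ℕ) (L κ δ : ℝ) (x i : ℕ) : Prop :=
  ∃ lam : ℝ, κ ≤ lam ∧ lam ≤ 1 / κ ∧ ∀ s t : ℕ, s ≤ 2 ^ i → t ≤ 2 ^ i →
    |(count S (x - s) (x + t) : ℝ) - lam * (s + t) / L| ≤ δ * 2 ^ i / L

open Classical in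
/-- The number of the scales `L ≤ 2 ^ i ≤ Y` without this property. -/
noncomputable def badScales (S : Set ℕ) (L κ δ : ℝ) (Y x : ℕ) : ℕ :=
  ((Finset.range (Nat.log 2 Y + 1)).filter (fun i => L ≤ (2 : ℝ) ^ i ∧ ¬ ConstantDensity S L κ δ x i)).card

/-- The elements of `S` that are not regular points of `S`. -/
def Irregular (S : Set ℕ) (L κ δ : ℝ) (M Y : ℕ) : Set ℕ :=
  {x | x ∈ S ∧ ¬ (RightOrder S L κ Y x ∧ badScales S L κ δ Y x ≤ M)}

/-- The `m`-th prime: `pr 1 = 2`. -/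
noncomputable def pr (m : ℕ) : ℕ := Nat.nth Nat.Prime (m - 1)

/-- The `x` for which `k` and `l` are primes `> y`, `k` is admissible for `n` in the sense of the question and
`q(n, k) > y`. -/
def Sol (n j y : ℕ) : Set ℕ := {x | ∃ k l q : ℕ, (k : ℤ) = kk n j x ∧ (l : ℤ) = ll n j x ∧ (q : ℤ) = qq n j x ∧
  k.Prime ∧ l.Prime ∧ q.Prime ∧ y < k ∧ y < l ∧ y < q ∧ (pr q - q - 1).Prime ∧ (pr q - q + 1).Prime}

/-- **Regular points.** (1) Every `n ≥ 8` has an admissible `j`. (2) If `k = kk n j x` and `l = ll n j x`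
are primes, then `1 ≤ k < n - 2`, `n = k + 2 ^ j l` and `q(n, k) = φ(k) + φ(n - k) / 2 + 1` is `qq n j x`. (3) The
elements `x` of `Sol n j y` satisfy `Rough n j y x`. (4) Let `θ > 0` be given and `r ≥ r0(θ)`. For `ε > 0` there is
`κ > 0`, and for `δ > 0` there is `M`, such that for EVERY large `n`, ALL admissible `j`, all `n ^ θ ≤ Y ≤ n`,
`u ≥ Y`, and EVERY set `S` of integers `x` such that none of `k`, `l`, `q` has a prime factor `≤ n ^ (1 / r)`, for
instance `S = Sol n j y`: all but at most `ε Y V` of the elements of `S` in `(u, u + Y]` are regular points of `S`: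
all intervals of length between `1 / (κ V)` and `Y` around them contain the right order of elements of `S`, and `S`
has a constant density up to `δ` around them at all but `M` dyadic scales. -/
theorem result :
    (∀ n : ℕ, 8 ≤ n → ∃ j, Fits n j) ∧
    (∀ n j x k l : ℕ, Fits n j → k.Prime → l.Prime → (k : ℤ) = kk n j x → (l : ℤ) = ll n j x →
      1 ≤ k ∧ k + 2 < n ∧ n = k + 2 ^ j * l ∧
        ((k.totient + (n - k).totient / 2 + 1 : ℕ) : ℤ) = qq n j x) ∧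
    (∀ n j y x : ℕ, x ∈ Sol n j y → Rough n j y x) ∧
    ∀ (θ : ℝ), 0 < θ →
    ∃ r0 : ℕ, 2 ≤ r0 ∧ ∀ r : ℕ, r0 ≤ r → ∀ ε : ℝ, 0 < ε → ∃ κ : ℝ, 0 < κ ∧
      ∀ δ : ℝ, 0 < δ → ∃ M : ℕ, ∀ᶠ n : ℕ in atTop, ∀ j : ℕ, Fits n j →
      ∀ u Y : ℕ, (n : ℝ) ^ θ ≤ Y → Y ≤ n → Y ≤ u →
      ∀ S : Set ℕ, (∀ x ∈ S, Rough n j ⌊(n : ℝ) ^ (1 / (r : ℝ))⌋₊ x) →
        (count (Irregular S (1 / V n j ⌊(n : ℝ) ^ (1 / (r : ℝ))⌋₊) κ δ M Y) u (u + Y) : ℝ) ≤
          ε * (Y * V n j ⌊(n : ℝ) ^ (1 / (r : ℝ))⌋₊) := by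
  refine ⟨Pool.Agent.R251.TS.exists_fits, Pool.Agent.R251.TS.link, ?_, fun θ hθ => ?_⟩
  · rintro n j y x ⟨k, l, q, h1, h2, h3, hk, hl, hq, hyk, hyl, hyq, -, -⟩ p hp hpy hd
    have key : ∀ m : ℕ, m.Prime → y < m → ¬ (p : ℤ) ∣ (m : ℤ) := by
      intro m hm hym h
      have := (Nat.prime_dvd_prime_iff_eq hp hm).1 (by exact_mod_cast h)
      omega
    rcases hd with h | h | h
    · rw [← h1] at h; exact key k hk hyk h
    · rw [← h2] at h; exact key l hl hyl h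
    · rw [← h3] at h; exact key q hq hyq h
  obtain ⟨r0, hr0, h0⟩ := Pool.Agent.R518.G.regG 3 1 2 1 (1 / 2) θ (by norm_num) hθ
  refine ⟨r0, hr0, fun r hr ε hε => ?_⟩
  obtain ⟨κ, hκ, h1⟩ := h0 r hr 4 ε (by norm_num) hε
  refine ⟨κ, hκ, fun δ hδ => ?_⟩
  obtain ⟨M, h2⟩ := h1 δ hδ
  refine ⟨M, ?_⟩
  filter_upwards [h2, eventually_ge_atTop 10] with n hn hn2
  intro j hj u Y hY hYX hYu S hS
  exact hn _ (Divides n j) (Pool.Agent.R518.G.tr0 (Pool.Agent.R251.TS.us n j hn2 hj _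
      (Pool.Agent.R251.TS.half_lt n hn2)))
    (Pool.Agent.R251.TS.rep n j) _ (Finset.card_singleton _).le
    (Pool.Agent.R251.TS.noAs n j hj _) _ rfl (Pool.Agent.R251.TS.De_le n j hj _) u Y hY hYX hYu S hS

end Pool.Agent.Results.MP_61a569_nt.RegularPoints
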